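import Pool.Agent.Lib.MP_5e3ef6_lc.Ivt

namespace Pool.Agent.Lib.MP_5e3ef6_lc

/-- the number whose binary digits are `P 0, ..., P (m-1)` -/
def tV (P : ℕ → Bool) (m : ℕ) : ℕ :=
  Nat.rec 0 (fun y a => 2 * a + if P y = true then 1 else 0) m

theorem tV_succ (P : ℕ → Bool) (m : ℕ) :
    tV P (m + 1) = 2 * tV P m + if P m = true then 1 else 0 := rfl

@[fun_prop] theorem pr_tV {α : Type} [Primcodable α] {P : α → ℕ → Bool} {m : α → ℕ}
    (hP : PR fun z : α × ℕ => P z.1 z.2) (hm : PR m) : PR fun a => tV (P a) (m a) :=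
  PR.natRec (h := fun a y c => 2 * c + if P a y = true then 1 else 0) hm (PR.const 0)
    (by fun_prop)

theorem tV_congr {P Q : ℕ → Bool} (m : ℕ) (h : ∀ y < m, P y = Q y) : tV P m = tV Q m := by
  induction m with
  | zero => rfl
  | succ m ih => rw [tV_succ, tV_succ, ih fun y hy => h y (by omega), h m (by omega)]

theorem tV_disj {P Q : ℕ → Bool} (h : ∀ y, P y = true → Q y = true → False) (m : ℕ) :
    tV P m + tV Q m < 2 ^ m := by
  induction m with
  | zero => exact Nat.one_pos
  | succ m ih =>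
    rw [tV_succ, tV_succ, pow_succ]
    have := h m
    split_ifs <;> first | omega | tauto

theorem tV_le (P : ℕ → Bool) (m k : ℕ) : tV P m * 2 ^ k ≤ tV P (m + k) := by
  induction k with
  | zero => simp
  | succ k ih =>
    rw [← add_assoc, tV_succ, pow_succ, ← mul_assoc]
    omega

theorem tV_cover {P Q : ℕ → Bool} (m : ℕ) (h : ∀ y < m, P y = true ∨ Q y = true) :
    2 ^ m ≤ tV P m + tV Q m + 1 := by
  induction m with
  | zero => simp
  | succ m ih =>
    rw [tV_succ, tV_succ, pow_succ]
    have h1 := h m (by omega)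
    have h2 := ih fun y hy => h y (by omega)
    split_ifs <;> first | omega | tauto

theorem tV_cover2 {P Q : ℕ → Bool} {x : ℕ} (hP : P x = true) (hQ : Q x = true) (k : ℕ)
    (h : ∀ y < x + 1 + k, P y = true ∨ Q y = true) :
    2 ^ (x + 1 + k) + 2 ^ k ≤ tV P (x + 1 + k) + tV Q (x + 1 + k) + 1 := by
  induction k with
  | zero =>
    have := tV_cover x fun y hy => h y (by omega)
    rw [add_zero, tV_succ, tV_succ, pow_succ, if_pos hP, if_pos hQ]
    omega
  | succ k ih =>
    rw [← add_assoc, tV_succ, tV_succ, pow_succ, pow_succ]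
    have h1 := h (x + 1 + k) (by omega)
    have h2 := ih fun y hy => h y (by omega)
    split_ifs <;> first | omega | tauto

theorem tV_real {P Q : ℕ → Bool} (h : ∀ y, P y = true → Q y = true → False) (m k : ℕ) :
    (tV P m : ℝ) / 2 ^ m + tV Q k / 2 ^ k ≤ 1 := by
  have key : ∀ (P : ℕ → Bool) (m k : ℕ), (tV P m : ℝ) / 2 ^ m ≤ tV P (m + k) / 2 ^ (m + k) := by
    intro P m k
    rw [div_le_div_iff₀ (by positivity) (by positivity), pow_add, ← mul_assoc, mul_right_comm]
    have : (tV P m : ℝ) * 2 ^ k ≤ tV P (m + k) := by exact_mod_cast tV_le P m k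
    exact mul_le_mul_of_nonneg_right this (by positivity)
  have h1 := key P m k
  have h2 := key Q k m
  rw [add_comm k m] at h2
  have h3 : (tV P (m + k) : ℝ) + tV Q (m + k) ≤ 2 ^ (m + k) := by
    exact_mod_cast (tV_disj h (m + k)).le
  have h4 : (tV P (m + k) : ℝ) / 2 ^ (m + k) + tV Q (m + k) / 2 ^ (m + k) ≤ 1 := by
    rw [← add_div, div_le_one (by positivity)]
    exact h3
  linarith

/-- all lists of length at most `m` with entries below `m` -/
def tT (m : ℕ) : List (List ℕ) :=
  (List.range (m + 1)).flatMap fun k => UCE.words (List.range m) k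

theorem pr_tT : PR tT := by
  have : PR fun z : ℕ × ℕ => UCE.words (List.range z.1) z.2 :=
    PR.natRec (f := fun z : ℕ × ℕ => z.2) (g := fun _ => ([[]] : List (List ℕ)))
      (h := fun z _ W => W.flatMap fun w => (List.range z.1).map fun b => b :: w)
      (by fun_prop) (PR.const _) (by fun_prop)
  exact PR.flatMap (f := fun m : ℕ => List.range (m + 1))
    (g := fun m k => UCE.words (List.range m) k) (by fun_prop) this

theorem mem_tT {m : ℕ} {l : List ℕ} (h1 : l.Nodup) (h2 : ∀ y ∈ l, y < m) : l ∈ tT m := by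
  have key : ∀ l : List ℕ, (∀ y ∈ l, y < m) → l ∈ UCE.words (List.range m) l.length := by
    intro l
    induction l with
    | nil => exact fun _ => List.mem_singleton.2 rfl
    | cons b w ih =>
      intro h
      show _ ∈ (UCE.words (List.range m) w.length).flatMap _
      simp only [List.mem_flatMap, List.mem_map, List.mem_range]
      exact ⟨w, ih fun y hy => h y (List.mem_cons_of_mem _ hy), b, h b List.mem_cons_self, rfl⟩
  have hl : l.length ≤ m := by
    have := (List.subperm_of_subset h1 (l₂ := List.range m)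
      fun y hy => List.mem_range.2 (h2 y hy)).length_le
    simpa using this
  exact List.mem_flatMap.2 ⟨l.length, List.mem_range.2 (by omega), key l h2⟩

/-- the elements below `m` in the order in which the list `l` relates them to `x` -/
def hist (l : List ℕ) (x m : ℕ) : List ℕ :=
  l.foldl (fun a v => if v = Nat.pair x (v - 1).unpair.2 + 1 ∧ (v - 1).unpair.2 < m ∧
    ¬ (v - 1).unpair.2 ∈ a then a ++ [(v - 1).unpair.2] else a) [x]

@[fun_prop] theorem pr_hist {α : Type} [Primcodable α] {l : α → List ℕ} {x m : α → ℕ}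
    (hl : PR l) (hx : PR x) (hm : PR m) : PR fun a => hist (l a) (x a) (m a) := by
  unfold hist
  fun_prop

theorem hist_succ (p : ℕ → ℕ) (s x m : ℕ) : hist (pre p (s + 1)) x m =
    if p s = Nat.pair x (p s - 1).unpair.2 + 1 ∧ (p s - 1).unpair.2 < m ∧
      ¬ (p s - 1).unpair.2 ∈ hist (pre p s) x m then
      hist (pre p s) x m ++ [(p s - 1).unpair.2] else hist (pre p s) x m := by
  have : pre p (s + 1) = pre p s ++ [p s] := by simp [pre, List.range_succ]
  rw [this, hist, List.foldl_append]
  rfl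

theorem hist_mono (p : ℕ → ℕ) (x m : ℕ) {s t : ℕ} (h : s ≤ t) :
    hist (pre p s) x m <+: hist (pre p t) x m := by
  induction t, h using Nat.le_induction with
  | base => exact List.prefix_refl _
  | succ t _ ih =>
    rw [hist_succ]
    split_ifs
    · exact ih.trans (List.prefix_append _ _)
    · exact ih

theorem hist_spec (p : ℕ → ℕ) {x m : ℕ} (hx : x < m) (s : ℕ) :
    (hist (pre p s) x m).Nodup ∧ ∀ y ∈ hist (pre p s) x m, y < m ∧ (y = x ∨ rel p x y) := by
  induction s with
  | zero =>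
    have : hist (pre p 0) x m = [x] := rfl
    simp [this, hx]
  | succ s ih =>
    rw [hist_succ]
    split_ifs with h
    · refine ⟨List.nodup_append.2 ⟨ih.1, List.nodup_singleton _, ?_⟩, fun y hy => ?_⟩
      · intro a ha b hb e
        rw [List.mem_singleton.1 hb] at e
        exact h.2.2 (e ▸ ha)
      · rcases List.mem_append.1 hy with hy | hy
        · exact ih.2 y hy
        · rw [List.mem_singleton.1 hy]
          exact ⟨h.2.1, Or.inr ⟨s, h.1⟩⟩
    · exact ih

theorem hist_self (p : ℕ → ℕ) (x m s : ℕ) : x ∈ hist (pre p s) x m :=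
  (hist_mono p x m (Nat.zero_le s)).subset (List.mem_singleton.2 rfl)

theorem hist_mem {p : ℕ → ℕ} {x y m : ℕ} (h : rel p x y) (hy : y < m) :
    ∃ s, y ∈ hist (pre p s) x m := by
  obtain ⟨i, hi⟩ := h
  refine ⟨i + 1, ?_⟩
  rw [hist_succ, hi]
  simp only [add_tsub_cancel_right, Nat.unpair_pair]
  split_ifs with h
  · simp
  · by_contra h'
    exact h ⟨trivial, hy, h'⟩

/-- neither list is an initial part of the other -/
def inc (a b : List ℕ) : Prop := ¬ a = b.take a.length ∧ ¬ b = a.take b.length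

instance (a b : List ℕ) : Decidable (inc a b) := inferInstanceAs (Decidable (_ ∧ _))

@[fun_prop] theorem pr_inc {α : Type} [Primcodable α] {a b : α → List ℕ} (ha : PR a) (hb : PR b) :
    PR fun z => decide (inc (a z) (b z)) := by
  unfold inc
  fun_prop

theorem inc_iff {a b : List ℕ} : inc a b ↔ ¬ a <+: b ∧ ¬ b <+: a := by
  simp only [inc, List.prefix_iff_eq_take]

theorem two_leaves (T : List (List ℕ)) (S : List ℕ → Prop) (hT : ∀ h, S h → h ∈ T)
    (h3 : ∀ a b c, S a → S b → S c → ¬ (inc a b ∧ inc a c ∧ inc b c)) (h0 : ∃ h, S h) :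
    ∃ a b, S a ∧ S b ∧ ∀ h, S h → h <+: a ∨ h <+: b := by
  have hf : {h | S h}.Finite := T.finite_toSet.subset hT
  obtain ⟨a, ha, hmax⟩ := Set.exists_max_image _ List.length hf h0
  have hx : ∀ h, S h → ¬ h <+: a → inc a h := fun h hh hn =>
    inc_iff.2 ⟨fun hp => hn (by
      rw [hp.eq_of_length_le (hmax h hh)]), hn⟩
  by_cases hall : ∃ h, S h ∧ ¬ h <+: a
  · obtain ⟨b, hb, hmax'⟩ := Set.exists_max_image {h | S h ∧ ¬ h <+: a} List.length
      (hf.subset fun h hh => hh.1) hall
    refine ⟨a, b, ha, hb.1, fun h hh => ?_⟩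
    by_contra hc
    push Not at hc
    refine h3 a b h ha hb.1 hh ⟨hx b hb.1 hb.2, hx h hh hc.1, inc_iff.2 ⟨fun hp => hc.2 ?_, hc.2⟩⟩
    rw [hp.eq_of_length_le (hmax' h ⟨hh, hc.1⟩)]
  · push Not at hall
    exact ⟨a, a, ha, ha, fun h hh => Or.inl (hall h hh)⟩

end Pool.Agent.Lib.MP_5e3ef6_lc
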