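import Pool.Agent.Lib.MP_5e3ef6_lc.T3.A

namespace Pool.Agent.Lib.MP_5e3ef6_lc

/-- `b` is the least element that the list `l` does not relate to `0` -/
def isB (l : List ℕ) (b : ℕ) : Bool :=
  ((List.range b).all fun c => decide (Nat.pair 0 c + 1 ∈ l)) && decide (¬ Nat.pair 0 b + 1 ∈ l)

@[fun_prop] theorem pr_isB {α : Type} [Primcodable α] {l : α → List ℕ} {b : α → ℕ}
    (hl : PR l) (hb : PR b) : PR fun a => isB (l a) (b a) := by
  unfold isB
  fun_prop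

theorem isB_iff {l : List ℕ} {b : ℕ} :
    isB l b = true ↔ (∀ c < b, Nat.pair 0 c + 1 ∈ l) ∧ Nat.pair 0 b + 1 ∉ l := by
  simp [isB]

/-- `y` is seen in the class of the current opponent of `0` and not yet in the class of `0` -/
def upw (l : List ℕ) (y : ℕ) : Bool :=
  decide (¬ Nat.pair 0 y + 1 ∈ l) &&
    l.any fun v => isB l (v - 1).unpair.1 && decide (v = Nat.pair (v - 1).unpair.1 y + 1)

@[fun_prop] theorem pr_upw {α : Type} [Primcodable α] {l : α → List ℕ} {b : α → ℕ}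
    (hl : PR l) (hb : PR b) : PR fun a => upw (l a) (b a) := by
  unfold upw
  fun_prop

theorem upw_iff {l : List ℕ} {y : ℕ} : upw l y = true ↔
    Nat.pair 0 y + 1 ∉ l ∧ ∃ b, isB l b = true ∧ Nat.pair b y + 1 ∈ l := by
  simp only [upw, Bool.and_eq_true, decide_eq_true_eq, List.any_eq_true]
  refine and_congr_right fun _ => ⟨fun ⟨v, h1, h2, h3⟩ => ⟨_, h2, h3 ▸ h1⟩,
    fun ⟨b, h1, h2⟩ => ⟨_, h2, by simpa using h1, by simp⟩⟩

/-- `y` went to the upper side before the end of `l` -/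
def zz (l : List ℕ) (y : ℕ) : Bool := (List.range l.length).any fun s => upw (l.take s) y

@[fun_prop] theorem pr_zz {α : Type} [Primcodable α] {l : α → List ℕ} {b : α → ℕ}
    (hl : PR l) (hb : PR b) : PR fun a => zz (l a) (b a) := by
  unfold zz
  fun_prop

theorem zz_iff {p : ℕ → ℕ} {s y : ℕ} :
    zz (pre p s) y = true ↔ ∃ t < s, upw (pre p t) y = true := by
  simp only [zz, List.any_eq_true, List.mem_range, length_pre]
  exact exists_congr fun t => and_congr_right fun h => by rw [take_pre p h.le]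

def Up (p : ℕ → ℕ) (y : ℕ) : Prop := ∃ s, upw (pre p s) y = true

def Lo (p : ℕ → ℕ) (y : ℕ) : Prop :=
  ∃ s, (decide (Nat.pair 0 y + 1 ∈ pre p s) && !zz (pre p s) y) = true

theorem mem_pre_mono {p : ℕ → ℕ} {s t a : ℕ} (h : s ≤ t) (ha : a ∈ pre p s) : a ∈ pre p t := by
  obtain ⟨i, hi, e⟩ := mem_pre.1 ha
  exact mem_pre.2 ⟨i, by omega, e⟩

theorem rel_of_mem {p : ℕ → ℕ} {s x y : ℕ} (h : Nat.pair x y + 1 ∈ pre p s) : rel p x y := by
  obtain ⟨i, -, e⟩ := mem_pre.1 h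
  exact ⟨i, e⟩

theorem lo_up {p : ℕ → ℕ} {y : ℕ} (h : Lo p y) (h' : Up p y) : False := by
  obtain ⟨s, hs⟩ := h
  obtain ⟨t, ht⟩ := h'
  simp only [Bool.and_eq_true, decide_eq_true_eq, Bool.not_eq_true'] at hs
  rcases lt_or_ge t s with h | h
  · have := zz_iff.2 ⟨t, h, ht⟩
    rw [hs.2] at this
    cases this
  · exact (upw_iff.1 ht).1 (mem_pre_mono h hs.1)

section
variable {p : ℕ → ℕ} {s b : ℕ} (hE : Equivalence (rel p)) (hs : isB (pre p s) b = true)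
  (hb : ¬ rel p 0 b)
include hE hs hb

theorem up_of_b {y : ℕ} (h : rel p b y) : Up p y := by
  obtain ⟨i, hi⟩ := id h
  refine ⟨max s (i + 1), upw_iff.2 ⟨fun h' => hb (hE.trans (rel_of_mem h') (hE.symm h)), b,
    isB_iff.2 ⟨fun c hc => mem_pre_mono (le_max_left _ _) ((isB_iff.1 hs).1 c hc),
      fun h' => hb (rel_of_mem h')⟩, mem_pre.2 ⟨i, by omega, hi⟩⟩⟩

theorem zz_ab {y : ℕ} (h : zz (pre p s) y = true) : rel p 0 y ∨ rel p b y := by
  obtain ⟨t, -, ht⟩ := zz_iff.1 h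
  obtain ⟨-, c, h1, h2⟩ := upw_iff.1 ht
  rcases lt_trichotomy c b with h | rfl | h
  · exact Or.inl (hE.trans (rel_of_mem ((isB_iff.1 hs).1 c h)) (rel_of_mem h2))
  · exact Or.inr (rel_of_mem h2)
  · exact absurd (rel_of_mem ((isB_iff.1 h1).1 b h)) hb

theorem lo_of_a {y : ℕ} (h : rel p 0 y) (hz : zz (pre p s) y = false) : Lo p y := by
  obtain ⟨i, hi⟩ := id h
  refine ⟨i + 1, ?_⟩
  simp only [Bool.and_eq_true, decide_eq_true_eq, Bool.not_eq_true']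
  refine ⟨mem_pre.2 ⟨i, by omega, hi⟩, Bool.eq_false_iff.2 fun h' => ?_⟩
  obtain ⟨t, -, ht⟩ := zz_iff.1 h'
  obtain ⟨-, c, h1, h2⟩ := upw_iff.1 ht
  rcases lt_trichotomy c b with hc | rfl | hc
  · have : t < s := not_le.1 fun hle =>
      (isB_iff.1 h1).2 (mem_pre_mono hle ((isB_iff.1 hs).1 c hc))
    have := zz_iff.2 ⟨t, this, ht⟩
    rw [hz] at this
    cases this
  · exact hb (hE.trans h (hE.symm (rel_of_mem h2)))
  · exact hb (rel_of_mem ((isB_iff.1 h1).1 b hc))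

end

theorem exists_isB {p : ℕ → ℕ} (hp : p ∈ DIAG.dom) :
    ∃ s b, isB (pre p s) b = true ∧ ¬ rel p 0 b := by
  classical
  obtain ⟨hE, x, y, hxy⟩ := hp
  have h : ∃ b, ¬ rel p 0 b := by
    by_contra hc
    push Not at hc
    exact hxy (hE.trans (hE.symm (hc x)) (hc y))
  have h1 : ∀ c, ∃ i, c < Nat.find h → p i = Nat.pair 0 c + 1 := fun c => by
    by_cases hc : c < Nat.find h
    · obtain ⟨i, hi⟩ := not_not.1 (Nat.find_min h hc)
      exact ⟨i, fun _ => hi⟩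
    · exact ⟨0, fun h' => absurd h' hc⟩
  choose I hI using h1
  refine ⟨(Finset.range (Nat.find h)).sup I + 1, Nat.find h, isB_iff.2 ⟨fun c hc =>
    mem_pre.2 ⟨I c, Nat.lt_succ_of_le (Finset.le_sup (Finset.mem_range.2 hc)), hI c hc⟩,
    fun h' => Nat.find_spec h (rel_of_mem h')⟩, Nat.find_spec h⟩

/-- the bounds listed by the interval instance -/
def IvB (p : ℕ → ℕ) (i c : ℕ) : Prop := ∃ l : List ℕ,
  (i = 0 ∧ c.unpair.1 = tV (fun y => decide (y ∈ l)) c.unpair.2) ∧ (∀ y ∈ l, Lo p y) ∨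
  (i = 1 ∧ c.unpair.1 + tV (fun y => decide (y ∈ l)) c.unpair.2 = 2 ^ c.unpair.2) ∧
    ∀ y ∈ l, Up p y

theorem uce_IvB : UCE (fun p : ℕ → ℕ => p) fun p (z : ℕ × ℕ) => IvB p z.1 z.2 := by
  have hL : UCE (fun p : ℕ → ℕ => p) Lo :=
    UCE.mk' (fun l y => decide (Nat.pair 0 y + 1 ∈ l) && !zz l y) (by fun_prop) fun _ _ => Iff.rfl
  have hU : UCE (fun p : ℕ → ℕ => p) Up :=
    UCE.mk' (fun l y => upw l y) (by fun_prop) fun _ _ => Iff.rfl
  refine UCE.ex ?_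
  refine UCE.or (UCE.and (UCE.of_pr (by fun_prop)) ?_) (UCE.and (UCE.of_pr (by fun_prop)) ?_)
  · exact UCE.ball (hL.comp (f := fun w : ((ℕ × ℕ) × List ℕ) × ℕ => w.2) (by fun_prop))
      (by fun_prop)
  · exact UCE.ball (hU.comp (f := fun w : ((ℕ × ℕ) × List ℕ) × ℕ => w.2) (by fun_prop))
      (by fun_prop)

theorem seg_IvB {p r : ℕ → ℕ} (h : rel r = IvB p) : (seg r).Nonempty := by
  have hlo : ∀ c, rel r 0 c → ∃ l : List ℕ, (∀ y ∈ l, Lo p y) ∧
      dy c = tV (fun y => decide (y ∈ l)) c.unpair.2 / 2 ^ c.unpair.2 := by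
    rw [h]
    rintro c ⟨l, ⟨⟨-, h1⟩, h2⟩ | ⟨⟨h1, -⟩, -⟩⟩
    · exact ⟨l, h2, by rw [dy, h1]⟩
    · omega
  have hup : ∀ c, rel r 1 c → ∃ l : List ℕ, (∀ y ∈ l, Up p y) ∧
      dy c = 1 - tV (fun y => decide (y ∈ l)) c.unpair.2 / 2 ^ c.unpair.2 := by
    rw [h]
    rintro c ⟨l, ⟨⟨h1, -⟩, -⟩ | ⟨⟨-, h1⟩, h2⟩⟩
    · omega
    · refine ⟨l, h2, ?_⟩
      have : (c.unpair.1 : ℝ) + tV (fun y => decide (y ∈ l)) c.unpair.2 = 2 ^ c.unpair.2 := by
        exact_mod_cast h1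
      rw [dy, eq_sub_iff_add_eq, ← add_div, this, div_self (by positivity)]
  have key : ∀ l l' : List ℕ, (∀ y ∈ l, Lo p y) → (∀ y ∈ l', Up p y) → ∀ m k,
      (tV (fun y => decide (y ∈ l)) m : ℝ) / 2 ^ m + tV (fun y => decide (y ∈ l')) k / 2 ^ k ≤ 1 :=
    fun l l' h1 h2 => tV_real fun y hy hy' =>
      lo_up (h1 y (by simpa using hy)) (h2 y (by simpa using hy'))
  obtain ⟨x, h1, h2⟩ := exists_between_of_forall_le (s := insert 0 (dy '' {c | rel r 0 c}))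
    (t := insert 1 (dy '' {c | rel r 1 c})) (Set.insert_nonempty _ _) (Set.insert_nonempty _ _) (by
      rintro _ (rfl | ⟨c, hc, rfl⟩) _ (rfl | ⟨d, hd, rfl⟩)
      · norm_num
      · unfold dy
        positivity
      · obtain ⟨l, h1, h2⟩ := hlo c hc
        have := key l [] h1 (by simp) c.unpair.2 0
        have h0 : (0 : ℝ) ≤ tV (fun y => decide (y ∈ ([] : List ℕ))) 0 / 2 ^ 0 := by positivity
        linarith
      · obtain ⟨l, h1, h2⟩ := hlo c hc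
        obtain ⟨l', h3, h4⟩ := hup d hd
        linarith [key l l' h1 h3 c.unpair.2 d.unpair.2])
  exact ⟨x, h1 (Set.mem_insert _ _), h2 (Set.mem_insert _ _), fun c =>
    ⟨fun hc => h1 (Or.inr ⟨c, hc, rfl⟩), fun hc => h2 (Or.inr ⟨c, hc, rfl⟩)⟩⟩

theorem sol_IvB {p r q : ℕ → ℕ} (h : rel r = IvB p) (hq : q ∈ IVT.sol r) (m : ℕ) (l : List ℕ) :
    ((∀ y ∈ l, Lo p y) → tV (fun y => decide (y ∈ l)) m ≤ q m + 1) ∧
    ((∀ y ∈ l, Up p y) → tV (fun y => decide (y ∈ l)) m + q m ≤ 2 ^ m + 1) := by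
  obtain ⟨x, ⟨-, -, hx⟩, hq⟩ := hq
  have h1 := abs_le.1 (hq m)
  have hp : (0 : ℝ) < 2 ^ m := by positivity
  refine ⟨fun hl => ?_, fun hl => ?_⟩
  · have := (hx (Nat.pair (tV (fun y => decide (y ∈ l)) m) m)).1
      (by rw [h]; exact ⟨l, Or.inl ⟨by simp, hl⟩⟩)
    rw [dy_pair] at this
    have h2 : (tV (fun y => decide (y ∈ l)) m : ℝ) / 2 ^ m ≤ (q m + 1) / 2 ^ m := by
      rw [add_div]
      linarith [h1.2]
    rw [div_le_div_iff_of_pos_right hp] at h2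
    exact_mod_cast h2
  · have h0 : tV (fun y => decide (y ∈ l)) m ≤ 2 ^ m :=
      le_trans (Nat.le_add_right _ _) (tV_disj (Q := fun _ => false) (by simp) m).le
    have := (hx (Nat.pair (2 ^ m - tV (fun y => decide (y ∈ l)) m) m)).2
      (by rw [h]; exact ⟨l, Or.inr ⟨by simp [h0], hl⟩⟩)
    rw [dy_pair] at this
    have h2 : (q m : ℝ) / 2 ^ m ≤
        (((2 ^ m - tV (fun y => decide (y ∈ l)) m : ℕ) : ℝ) + 1) / 2 ^ m := by
      rw [add_div]
      linarith [h1.1]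
    rw [div_le_div_iff_of_pos_right hp] at h2
    have h3 : q m ≤ 2 ^ m - tV (fun y => decide (y ∈ l)) m + 1 := by exact_mod_cast h2
    omega

end Pool.Agent.Lib.MP_5e3ef6_lc
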