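import Pool.Agent.Lib.MP_5e3ef6_lc.Ivt

namespace Pool.Agent.Lib.MP_5e3ef6_lc

open Topology

/-- the interval part of an instance of the triple product -/
def iv (r : ℕ → ℕ) (n : ℕ) : ℕ := r (2 * (2 * n) + 1)

/-- the avoidance part of an instance of the triple product -/
def dn (r : ℕ → ℕ) (n : ℕ) : ℕ := r (2 * (2 * n + 1) + 1)

noncomputable def nm (y : ℝ) (i : ℕ) : ℕ := ⌊y * 2 ^ i + 1 / 2⌋₊

theorem nm_spec {y : ℝ} (h : 0 ≤ y) (i : ℕ) : |y - nm y i / 2 ^ i| ≤ 1 / 2 ^ (i + 1) := by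
  have hp : (0 : ℝ) < 2 ^ i := by positivity
  have h1 : (nm y i : ℝ) ≤ y * 2 ^ i + 1 / 2 := Nat.floor_le (by positivity)
  have h2 : y * 2 ^ i + 1 / 2 < nm y i + 1 := Nat.lt_floor_add_one _
  have e : y - nm y i / 2 ^ i = (y * 2 ^ i - nm y i) / 2 ^ i := by field_simp
  have e' : (1 : ℝ) / 2 ^ (i + 1) = 1 / 2 / 2 ^ i := by
    rw [pow_succ]
    field_simp
  rw [e, e', abs_div, abs_of_pos hp]
  exact div_le_div_of_nonneg_right (abs_le.2 ⟨by linarith, by linarith⟩) hp.le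

theorem half_mono {i j : ℕ} (h : i ≤ j) : (1 : ℝ) / 2 ^ j ≤ 1 / 2 ^ i :=
  one_div_le_one_div_of_le (by positivity) (pow_le_pow_right₀ (by norm_num) h)

theorem half_succ (i : ℕ) : (1 : ℝ) / 2 ^ i = 1 / 2 ^ (i + 1) + 1 / 2 ^ (i + 1) := by
  rw [pow_succ]
  field_simp
  norm_num

variable {P : Problem} {K : ℕ∞} (R : CRed P (prod CN (prod IVT (DNC K))))
  (hP : ∀ p ∈ PP, p ∈ P.dom)
include hP

theorem keep_rel {p : ℕ → ℕ} (hp : p ∈ PP) (u : ℕ → ℕ) {a c : ℕ}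
    (h : rel (fun n => R.Φ p (u n)) a c) :
    ∃ k, ∀ p' ∈ PP, Agree k p p' → rel (fun n => R.Φ p' (u n)) a c := by
  obtain ⟨i, hi⟩ := h
  obtain ⟨k, hk⟩ := R.cΦ p (hP p hp) (u i + 1)
  exact ⟨k, fun p' hp' hA => ⟨i, (hk p' (hP p' hp') hA _ (Nat.lt_succ_self _)).symm.trans hi⟩⟩

theorem commit_loc {m k0 : ℕ} {p0 p1 : ℕ → ℕ}
    (hm : ∀ p ∈ PP, Agree k0 p0 p → ∀ i, R.Φ p (2 * i) ≠ m + 1) (hp1 : p1 ∈ PP)
    (hA : Agree k0 p0 p1) (n : ℕ) (y : ℝ) (hy : y ∈ Set.Icc (0 : ℝ) 1) (X : ℕ → Fin 4) :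
    ∃ k, ∃ g0 : ℕ → ℕ, ∀ p ∈ PP, Agree k p1 p → Agree k0 p0 p → ∀ y' ∈ seg (iv (R.Φ p)),
      |y' - y| ≤ 1 / 2 ^ k → ∀ X' : ℕ → Fin 4, Agree k X X' →
        (fun n => (X' n : ℕ)) ∈ (DNC K).sol (dn (R.Φ p)) → ∃ g ∈ P.sol p, Agree n g0 g := by
  have hJ : ∀ p ∈ PP, Agree k0 p0 p → ∀ q ∈ IVT.sol (iv (R.Φ p)),
      ∀ q' ∈ (DNC K).sol (dn (R.Φ p)),
      join (fun _ => m) (join q q') ∈ (prod CN (prod IVT (DNC K))).sol (R.Φ p) := by
    intro p hp hA q hq q' hq'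
    refine ⟨?_, ?_, ?_⟩
    · simp only [join_two_mul]
      exact hm p hp hA
    · simp only [join_two_mul, join_two_mul_add]
      exact hq
    · simp only [join_two_mul_add]
      exact hq'
  have hn : ∀ y : ℝ, 0 ≤ y → ∀ i, |y - nm y i / 2 ^ i| ≤ 1 / 2 ^ i := fun y h i =>
    (nm_spec h i).trans (half_mono (Nat.le_succ i))
  by_cases h1 : y ∈ seg (iv (R.Φ p1))
  · by_cases h2 : (fun n => (X n : ℕ)) ∈ (DNC K).sol (dn (R.Φ p1))
    · obtain ⟨k, hk⟩ := R.cΨ p1 (hP p1 hp1) _ (hJ p1 hp1 hA (nm y) ⟨y, h1, hn y hy.1⟩ _ h2) n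
      refine ⟨k + 1, R.Ψ p1 (join (fun _ => m) (join (nm y) fun n => (X n : ℕ))),
        fun p hp a1 a2 y' hy' hd X' a3 hX' => ?_⟩
      have hq : (fun i => if i < k then nm y i else nm y' i) ∈ IVT.sol (iv (R.Φ p)) := by
        refine ⟨y', hy', fun i => ?_⟩
        dsimp only
        split_ifs with hi
        · have b1 := abs_le.1 (nm_spec hy.1 i)
          have b2 := abs_le.1 hd
          have b3 := half_mono (show i + 1 ≤ k + 1 by omega)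
          rw [half_succ i, abs_le]
          constructor <;> linarith [b1.1, b1.2, b2.1, b2.2]
        · exact hn y' hy'.1 i
      refine ⟨_, R.sol p (hP p hp) _ (hJ p hp a2 _ hq _ hX'), hk p (hP p hp) _
        (hJ p hp a2 _ hq _ hX') (a1.mono (Nat.le_succ k)) ((Agree.refl k _).join
          (Agree.join (fun i hi => by simp [hi]) fun i hi => by rw [a3 i (by omega)]))⟩
    · have : ∃ i, ¬ ((X i : ℕ) : ℕ∞) < K ∨ rel (dn (R.Φ p1)) i (X i) := by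
        by_contra hc
        push Not at hc
        exact h2 hc
      obtain ⟨i, hi | hi⟩ := this
      · refine ⟨i + 1, p0, fun p _ _ _ _ _ _ X' a3 hX' => absurd (hX' i).1 ?_⟩
        dsimp only
        rwa [← a3 i (Nat.lt_succ_self i)]
      · obtain ⟨k, hk⟩ := keep_rel R hP hp1 (fun n => 2 * (2 * n + 1) + 1) hi
        refine ⟨max k (i + 1), p0, fun p hp a1 _ _ _ _ X' a3 hX' => absurd ?_ (hX' i).2⟩
        dsimp only
        rw [← a3 i (by omega)]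
        exact hk p hp (a1.mono (le_max_left _ _))
  · have : ∃ c, (rel (iv (R.Φ p1)) 0 c ∧ y < dy c) ∨ (rel (iv (R.Φ p1)) 1 c ∧ dy c < y) := by
      by_contra hc
      push Not at hc
      exact h1 ⟨hy.1, hy.2, hc⟩
    obtain ⟨c, ⟨hc, hl⟩ | ⟨hc, hl⟩⟩ := this <;>
      obtain ⟨k, hk⟩ := keep_rel R hP hp1 (fun n => 2 * (2 * n) + 1) hc <;>
      obtain ⟨j, hj⟩ := exists_pow_lt_of_lt_one (sub_pos.2 hl) (show (1 / 2 : ℝ) < 1 by norm_num) <;>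
      rw [one_div_pow] at hj <;>
      refine ⟨max k j, p0, fun p hp a1 _ y' hy' hd _ _ _ => ?_⟩ <;>
      have b1 := hk p hp (a1.mono (le_max_left _ _)) <;>
      have b2 := abs_le.1 (hd.trans (half_mono (le_max_right _ _)))
    · have := (hy'.2.2 c).1 b1
      exfalso
      linarith [b2.2]
    · have := (hy'.2.2 c).2 b1
      exfalso
      linarith [b2.1]

theorem commit {m k0 : ℕ} {p0 p1 : ℕ → ℕ}
    (hm : ∀ p ∈ PP, Agree k0 p0 p → ∀ i, R.Φ p (2 * i) ≠ m + 1) (hp1 : p1 ∈ PP)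
    (hA : Agree k0 p0 p1) (n : ℕ) :
    ∃ l, ∀ y ∈ Set.Icc (0 : ℝ) 1, ∀ X : ℕ → Fin 4, ∃ g0 : ℕ → ℕ, ∀ p ∈ PP, Agree l p1 p →
      ∀ y' ∈ seg (iv (R.Φ p)), |y' - y| ≤ 1 / 2 ^ l →
        (fun n => (X n : ℕ)) ∈ (DNC K).sol (dn (R.Φ p)) → ∃ g ∈ P.sol p, Agree n g0 g := by
  classical
  have h := fun (z : ℝ × (ℕ → Fin 4)) (hz : z.1 ∈ Set.Icc (0 : ℝ) 1) =>
    commit_loc R hP hm hp1 hA n z.1 hz z.2
  choose! k g0 h using h
  obtain ⟨t, ht, hcov⟩ := ((isCompact_Icc (a := (0 : ℝ)) (b := 1)).prod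
    (isCompact_univ (X := ℕ → Fin 4))).elim_nhds_subcover
    (fun z => Metric.ball z.1 (1 / 2 ^ (k z + 1)) ×ˢ Set.pi (Set.Iio (k z)) fun i => {z.2 i})
    (fun z _ => prod_mem_nhds (Metric.ball_mem_nhds _ (by positivity))
      ((isOpen_set_pi (Set.finite_Iio _) fun _ _ => isOpen_discrete _).mem_nhds
        fun _ _ => rfl))
  refine ⟨max k0 (t.sup k + 1), fun y hy X => ?_⟩
  have := hcov (show (y, X) ∈ _ from ⟨hy, trivial⟩)
  simp only [Set.mem_iUnion] at this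
  obtain ⟨z, hz, h1, h2⟩ := this
  have hk : k z ≤ t.sup k := Finset.le_sup hz
  refine ⟨g0 z, fun p hp a1 y' hy' hd hX => h z (ht z hz).1 p hp (a1.mono (by omega))
    (hA.trans (a1.mono (le_max_left _ _))) y' hy' ?_ X (fun i hi => (h2 i hi).symm) hX⟩
  have b1 := abs_lt.1 (Real.dist_eq _ _ ▸ Metric.mem_ball.1 h1)
  have b2 := abs_le.1 (hd.trans (half_mono (show k z + 1 ≤ _ by omega)))
  rw [half_succ, abs_le]
  dsimp only at b1
  constructor <;> linarith [b1.1, b1.2, b2.1, b2.2]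

end Pool.Agent.Lib.MP_5e3ef6_lc
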