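import Pool.Agent.Lib.MP_5e3ef6_lc.T3.Neg

namespace Pool.Agent.Lib.MP_5e3ef6_lc

theorem not_paths {r : ℕ → ℕ} {b : ℕ} {w : ℕ → Fin b} (h : (fun n => (w n : ℕ)) ∉ paths r) :
    ∃ j, ∀ r' : ℕ → ℕ, ∀ w' : ℕ → Fin b, Agree j r r' → Agree j w w' →
      (fun n => (w' n : ℕ)) ∉ paths r' := by
  by_cases h1 : ∀ n, (w n : ℕ) < 2
  · have : ∃ i k, r i = Encodable.encode (pre (fun n => (w n : ℕ)) k) + 1 := by
      by_contra hc
      push Not at hc
      exact h ⟨h1, hc⟩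
    obtain ⟨i, k, hi⟩ := this
    refine ⟨max (i + 1) k, fun r' w' a1 a2 h' => h'.2 i k ?_⟩
    have : Agree k (fun n => (w n : ℕ)) fun n => (w' n : ℕ) := fun n hn =>
      congrArg Fin.val (a2 n (by omega))
    rw [← a1 i (by omega), hi, this.pre_eq]
  · push Not at h1
    obtain ⟨n, hn⟩ := h1
    refine ⟨n + 1, fun r' w' _ a2 h' => ?_⟩
    have := h'.1 n
    dsimp only at this
    rw [← a2 n (by omega)] at this
    omega

theorem not_diag_cn_fc_dnc (j : ℕ) {K : ℕ∞} (hK : 3 ≤ K) :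
    ¬ WRed DIAG (prod CN (prod (FC j) (DNC K))) := by
  classical
  intro h
  obtain ⟨R⟩ := h.cred
  obtain ⟨m, p0, hp0, k0, hm⟩ := baire (fun m => {p | ∀ i, R.Φ p (2 * i) ≠ m + 1})
    (fun p hp => (R.dom p (PP.dom hp)).1) (fun m p hp h => cn_closed R m hp h)
  obtain ⟨M, hM2, hM⟩ : ∃ M, 2 ≤ M ∧
      ∀ i < k0, ∀ u v, p0 i = Nat.pair u v + 1 → u < M ∧ v < M := by
    refine ⟨(Finset.range k0).sup p0 + 2, by omega, fun i hi u v h => ?_⟩
    have h1 := Finset.le_sup (f := p0) (Finset.mem_range.2 hi)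
    have h2 := Nat.left_le_pair u v
    have h3 := Nat.right_le_pair u v
    omega
  obtain ⟨β, hβ, hβ0, hβ1, hβr⟩ : ∃ β : ℕ → ℕ, (∀ u, β u ≤ 1) ∧ β 0 = 0 ∧ β 1 = 1 ∧
      ∀ u v, rel p0 u v → β u = β v := by
    refine ⟨fun u => if rel p0 u 1 then 1 else 0, fun u => by dsimp only; split_ifs <;> omega,
      if_neg hp0.2, if_pos (hp0.1.refl 1), fun u v h' => ?_⟩
    have : rel p0 u 1 ↔ rel p0 v 1 := ⟨hp0.1.trans (hp0.1.symm h'), hp0.1.trans h'⟩
    simp only [this]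
  obtain ⟨p1, hA1, hp1⟩ := exists_name p0 k0
    (fun u v => (if u < M then β u else u) = if v < M then β v else v) (fun i hi u v h => by
      simp only [if_pos (hM i hi u v h).1, if_pos (hM i hi u v h).2, hβr u v ⟨i, h⟩])
  have hP1 : p1 ∈ PP := by
    refine ⟨?_, ?_⟩ <;> rw [hp1]
    · exact ⟨fun _ => rfl, Eq.symm, Eq.trans⟩
    · dsimp only
      rw [if_pos (by omega), if_pos (by omega), hβ0, hβ1]
      omega
  have hJ : ∀ p ∈ PP, Agree k0 p0 p → ∀ q ∈ paths (iv (R.Φ p)),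
      ∀ q' ∈ (DNC K).sol (dn (R.Φ p)),
      join (fun _ => m) (join q q') ∈ (prod CN (prod (FC j) (DNC K))).sol (R.Φ p) := by
    intro p hp hA q hq q' hq'
    refine ⟨?_, ?_, ?_⟩
    · simp only [join_two_mul]
      exact hm p hp hA
    · simp only [join_two_mul, join_two_mul_add]
      exact hq
    · simp only [join_two_mul_add]
      exact hq'
  have dead : ∀ {b : ℕ} (w : ℕ → Fin b), (fun n => (w n : ℕ)) ∉ paths (iv (R.Φ p1)) →
      ∃ k, ∀ p ∈ PP, ∀ w' : ℕ → Fin b, Agree k p1 p → Agree k w w' →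
        (fun n => (w' n : ℕ)) ∉ paths (iv (R.Φ p)) := by
    intro b w hw
    obtain ⟨i, hi⟩ := not_paths hw
    obtain ⟨k, hk⟩ := R.cΦ p1 (PP.dom hP1) (4 * i + 4)
    exact ⟨max i k, fun p hp w' a1 a2 => hi _ w' (fun n hn => hk p (PP.dom hp)
      (a1.mono (le_max_right _ _)) _ (by omega)) (a2.mono (le_max_left _ _))⟩
  obtain ⟨L, hL⟩ := uniform (α := Fin 2 × Fin 4) (fun z k => ∃ g0 : ℕ → ℕ, ∀ p ∈ PP,
      Agree k p1 p → Agree k0 p0 p → ∀ z' : ℕ → Fin 2 × Fin 4, Agree k z z' →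
        (fun n => ((z' n).1 : ℕ)) ∈ paths (iv (R.Φ p)) →
        (fun n => ((z' n).2 : ℕ)) ∈ (DNC K).sol (dn (R.Φ p)) →
          ∃ g ∈ DIAG.sol p, Agree (M + j + 1) g0 g) (by
    intro z
    by_cases h1 : (fun n => ((z n).1 : ℕ)) ∈ paths (iv (R.Φ p1))
    · by_cases h2 : (fun n => ((z n).2 : ℕ)) ∈ (DNC K).sol (dn (R.Φ p1))
      · obtain ⟨k, hk⟩ := R.cΨ p1 (PP.dom hP1) _ (hJ p1 hP1 hA1 _ h1 _ h2) (M + j + 1)
        exact ⟨k, _, fun p hp a1 a2 z' a3 b1 b2 => ⟨_, R.sol p (PP.dom hp) _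
          (hJ p hp a2 _ b1 _ b2), hk p (PP.dom hp) _ (hJ p hp a2 _ b1 _ b2) a1
            ((Agree.refl k _).join (Agree.join (fun i hi => by rw [a3 i hi])
              fun i hi => by rw [a3 i hi]))⟩⟩
      · have : ∃ i, ¬ (((z i).2 : ℕ) : ℕ∞) < K ∨ rel (dn (R.Φ p1)) i (z i).2 := by
          by_contra hc
          push Not at hc
          exact h2 hc
        obtain ⟨i, hi | ⟨t, hi⟩⟩ := this
        · refine ⟨i + 1, p0, fun p _ _ _ z' a3 _ b2 => absurd (b2 i).1 ?_⟩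
          dsimp only
          rwa [← a3 i (Nat.lt_succ_self i)]
        · obtain ⟨k, hk⟩ := R.cΦ p1 (PP.dom hP1) (4 * t + 4)
          refine ⟨max k (i + 1), p0, fun p hp a1 _ z' a3 _ b2 => absurd ⟨t, ?_⟩ (b2 i).2⟩
          dsimp only
          rw [← a3 i (by omega), ← hi]
          exact (hk p (PP.dom hp) (a1.mono (le_max_left _ _)) _ (by omega)).symm
    · obtain ⟨k, hk⟩ := dead (fun n => (z n).1) h1
      exact ⟨k, p0, fun p hp a1 _ z' a3 b1 _ =>
        absurd b1 (hk p hp (fun n => (z' n).1) a1 fun i hi => congrArg Prod.fst (a3 i hi))⟩)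
  obtain ⟨L', hL'⟩ := uniform (α := Fin 2) (fun w k => ∀ p ∈ PP, Agree k p1 p →
      ∀ w' : ℕ → Fin 2, Agree k w w' → (fun n => (w' n : ℕ)) ∈ paths (iv (R.Φ p)) →
        ∃ w0 ∈ paths (iv (R.Φ p1)), Agree L w0 fun n => (w' n : ℕ)) (by
    intro w
    by_cases h1 : (fun n => (w n : ℕ)) ∈ paths (iv (R.Φ p1))
    · exact ⟨L, fun p _ _ w' a2 _ => ⟨_, h1, fun i hi => by rw [a2 i hi]⟩⟩
    · obtain ⟨k, hk⟩ := dead w h1
      exact ⟨k, fun p hp a1 w' a2 b => absurd b (hk p hp w' a1 a2)⟩)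
  have : ∀ x, ∃ p' ∈ PP, Agree (max k0 (max L L')) p1 p' ∧ rel p' = fun u v =>
      (if u < M then β u else if u < x then 0 else 1) =
        if v < M then β v else if v < x then 0 else 1 := fun x =>
    fut (fun u => if u < M then β u else if u < x then 0 else 1)
      (by rw [if_pos (by omega), if_pos (by omega)]; omega) (fun u v h => by
      rw [hp1] at h
      have := hβ u
      have := hβ v
      split_ifs at h ⊢ <;> omega) _
  choose p hp hA hr using this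
  have : ∀ x, ∃ w : ℕ → Fin 2, (fun n => (w n : ℕ)) ∈ paths (iv (R.Φ (p x))) ∧
      ∃ w0 ∈ paths (iv (R.Φ p1)), Agree L w0 fun n => (w n : ℕ) := by
    intro x
    obtain ⟨q, hq⟩ := (R.dom _ (PP.dom (hp x))).2.1.1
    obtain ⟨w0, k, hk, h1, h2⟩ := hL' fun n => ⟨q n, hq.1 n⟩
    exact ⟨fun n => ⟨q n, hq.1 n⟩, hq, h1 _ (hp x) ((hA x).mono (by omega)) _ h2 hq⟩
  choose w hw w0 hw0 hww using this
  have hc := (R.dom _ (PP.dom hP1)).2.1.2
  have hfin : (paths (iv (R.Φ p1))).Finite := Set.finite_of_encard_le_coe hc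
  obtain ⟨a, ha, b, hb, hab, e⟩ := Finset.exists_ne_map_eq_of_card_lt_of_maps_to
    (s := Finset.Icc M (M + j)) (t := hfin.toFinset) (f := w0) (by
      have h1 : (hfin.toFinset.card : ℕ∞) ≤ j := by
        rw [← hfin.encard_eq_coe_toFinset_card]
        exact hc
      have h2 : hfin.toFinset.card ≤ j := by exact_mod_cast h1
      rw [Nat.card_Icc]
      omega) fun x _ => by simpa using hw0 x
  wlog hlt : a < b generalizing a b
  · exact this b hb a ha hab.symm e.symm (by omega)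
  rw [Finset.mem_Icc] at ha hb
  obtain ⟨X, x1, x2⟩ := avoid2 hK (R.dom _ (PP.dom (hp a))).2.2 (R.dom _ (PP.dom (hp b))).2.2
  obtain ⟨z0, k, hk, ⟨g0, hg⟩, hz⟩ := hL fun n => (w a n, X n)
  have hk0 := fun x => hA1.trans ((hA x).mono (le_max_left _ _))
  obtain ⟨ga, c1, c2⟩ := hg _ (hp a) ((hA a).mono (by omega)) (hk0 a) _ hz (hw a) x1
  obtain ⟨gb, d1, d2⟩ := hg _ (hp b) ((hA b).mono (by omega)) (hk0 b) (fun n => (w b n, X n))
    (fun i hi => by
      have e1 := hww a i (by omega)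
      have e2 := hww b i (by omega)
      dsimp only at e1 e2
      rw [hz i hi]
      exact Prod.ext (Fin.ext (by dsimp only; rw [← e1, ← e2, e])) rfl) (hw b) x2
  have e1 := c1 a
  have e2 := d1 a
  rw [← c2 a (by omega), hr] at e1
  rw [← d2 a (by omega), hr] at e2
  have := hβ (g0 a)
  dsimp only at e1 e2
  split_ifs at e1 e2 <;> omega

end Pool.Agent.Lib.MP_5e3ef6_lc
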