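import Pool.Agent.Lib.MP_5e3ef6_lc.T3.Commit

namespace Pool.Agent.Lib.MP_5e3ef6_lc

theorem fut {p : ℕ → ℕ} (χ : ℕ → ℕ) (h01 : χ 0 ≠ χ 1) (h : ∀ u v, rel p u v → χ u = χ v)
    (l : ℕ) : ∃ p' ∈ PP, Agree l p p' ∧ rel p' = fun u v => χ u = χ v := by
  obtain ⟨p', h1, h2⟩ := exists_name p l (fun u v => χ u = χ v) fun i _ u v e => h u v ⟨i, e⟩
  refine ⟨p', ⟨?_, ?_⟩, h1, h2⟩ <;> rw [h2]
  · exact ⟨fun _ => rfl, Eq.symm, Eq.trans⟩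
  · exact h01

theorem dnc_one {K : ℕ∞} {r : ℕ → ℕ} (h : r ∈ (DNC K).dom) (n : ℕ) :
    ∃ a, ∀ v, v ≠ a → ¬ rel r n v := by
  by_cases hc : ∃ a, rel r n a
  · obtain ⟨a, ha⟩ := hc
    exact ⟨a, fun v hv hr => hv (h n _ _ hr ha)⟩
  · exact ⟨0, fun v _ hr => hc ⟨v, hr⟩⟩

theorem avoid2 {K : ℕ∞} (hK : 3 ≤ K) {r r' : ℕ → ℕ} (h : r ∈ (DNC K).dom)
    (h' : r' ∈ (DNC K).dom) : ∃ X : ℕ → Fin 4, (fun n => (X n : ℕ)) ∈ (DNC K).sol r ∧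
      (fun n => (X n : ℕ)) ∈ (DNC K).sol r' := by
  have : ∀ n, ∃ v : Fin 4, ((v : ℕ) : ℕ∞) < K ∧ ¬ rel r n v ∧ ¬ rel r' n v := by
    intro n
    obtain ⟨a, ha⟩ := dnc_one h n
    obtain ⟨b, hb⟩ := dnc_one h' n
    obtain ⟨v, h1, h2, h3⟩ : ∃ v, v < 3 ∧ v ≠ a ∧ v ≠ b := by
      by_contra hc
      push Not at hc
      have := hc 0
      have := hc 1
      have := hc 2
      omega
    exact ⟨⟨v, by omega⟩, lt_of_lt_of_le (by exact_mod_cast h1) hK, ha v h2, hb v h3⟩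
  choose X hX using this
  exact ⟨X, fun n => ⟨(hX n).1, (hX n).2.1⟩, fun n => ⟨(hX n).1, (hX n).2.2⟩⟩

theorem avoid3 {K : ℕ∞} (hK : 4 ≤ K) {r r' r'' : ℕ → ℕ} (h : r ∈ (DNC K).dom)
    (h' : r' ∈ (DNC K).dom) (h'' : r'' ∈ (DNC K).dom) : ∃ X : ℕ → Fin 4,
      (fun n => (X n : ℕ)) ∈ (DNC K).sol r ∧ (fun n => (X n : ℕ)) ∈ (DNC K).sol r' ∧
      (fun n => (X n : ℕ)) ∈ (DNC K).sol r'' := by
  have : ∀ n, ∃ v : Fin 4, ((v : ℕ) : ℕ∞) < K ∧ ¬ rel r n v ∧ ¬ rel r' n v ∧ ¬ rel r'' n v := by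
    intro n
    obtain ⟨a, ha⟩ := dnc_one h n
    obtain ⟨b, hb⟩ := dnc_one h' n
    obtain ⟨c, hc⟩ := dnc_one h'' n
    obtain ⟨v, h1, h2, h3, h4⟩ : ∃ v, v < 4 ∧ v ≠ a ∧ v ≠ b ∧ v ≠ c := by
      by_contra hc
      push Not at hc
      have := hc 0
      have := hc 1
      have := hc 2
      have := hc 3
      omega
    exact ⟨⟨v, h1⟩, lt_of_lt_of_le (by exact_mod_cast h1) hK, ha v h2, hb v h3, hc v h4⟩
  choose X hX using this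
  exact ⟨X, fun n => ⟨(hX n).1, (hX n).2.1⟩, fun n => ⟨(hX n).1, (hX n).2.2.1⟩,
    fun n => ⟨(hX n).1, (hX n).2.2.2⟩⟩

/-- the colouring of the future with index `x` -/
def chi (β : ℕ → ℕ) (M x u : ℕ) : ℕ :=
  if u < M then β u else if u = M ∨ x < u then 2 else if u = x then 1 else 0

variable {P : Problem} {K : ℕ∞} (R : CRed P (prod CN (prod IVT (DNC K))))
  (hP : ∀ p ∈ PP, p ∈ P.dom) (hK : 3 ≤ K)
  (hsol : ∀ p ∈ PP, ∀ g ∈ P.sol p, ∀ x, ¬ rel p (g x) x)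
include hP hK hsol

theorem long {p1 p : ℕ → ℕ} {l M : ℕ}
    (hc : ∀ y ∈ Set.Icc (0 : ℝ) 1, ∀ X : ℕ → Fin 4, ∃ g0 : ℕ → ℕ, ∀ p ∈ PP, Agree l p1 p →
      ∀ y' ∈ seg (iv (R.Φ p)), |y' - y| ≤ 1 / 2 ^ l →
        (fun n => (X n : ℕ)) ∈ (DNC K).sol (dn (R.Φ p)) → ∃ g ∈ P.sol p, Agree (M + 1) g0 g)
    (hp : p ∈ PP) (hA : Agree l p1 p) {χ : ℕ → ℕ} (hχ : rel p = fun u v => χ u = χ v)
    (h0 : χ 0 = 0) (h1 : χ 1 = 1) (hM : χ M = 2) :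
    ∃ z : ℝ, ∀ y, z ≤ y → y ≤ z + 1 / 2 ^ l → y ∈ seg (iv (R.Φ p)) := by
  have key : ∀ t, ∃ pa ∈ PP, ∃ pb ∈ PP, Agree t p pa ∧ Agree t p pb ∧
      ∃ ya ∈ seg (iv (R.Φ pa)), ∃ yb ∈ seg (iv (R.Φ pb)), 1 / 2 ^ l < |yb - ya| := by
    intro t
    obtain ⟨pa, hpa, a1, a2⟩ := fut (p := p) (fun u => if χ u = 1 then 1 else 0)
      (by simp [h0, h1]) (fun u v h => by rw [hχ] at h; rw [h]) (max t l)
    obtain ⟨pb, hpb, b1, b2⟩ := fut (p := p) (fun u => if χ u = 0 then 0 else 1)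
      (by simp [h0, h1]) (fun u v h => by rw [hχ] at h; rw [h]) (max t l)
    obtain ⟨-, ⟨ya, hya⟩, da⟩ := R.dom pa (hP pa hpa)
    obtain ⟨-, ⟨yb, hyb⟩, db⟩ := R.dom pb (hP pb hpb)
    refine ⟨pa, hpa, pb, hpb, a1.mono (le_max_left _ _), b1.mono (le_max_left _ _),
      ya, hya, yb, hyb, not_le.1 fun hd => ?_⟩
    obtain ⟨X, x1, x2⟩ := avoid2 hK da db
    obtain ⟨g0, hg⟩ := hc ya ⟨hya.1, hya.2.1⟩ X
    obtain ⟨ga, c1, c2⟩ := hg pa hpa (hA.trans (a1.mono (le_max_right _ _))) ya hya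
      (by simp) x1
    obtain ⟨gb, d1, d2⟩ := hg pb hpb (hA.trans (b1.mono (le_max_right _ _))) yb hyb hd x2
    have e1 := hsol pa hpa ga c1 M
    have e2 := hsol pb hpb gb d1 M
    rw [← c2 M (Nat.lt_succ_self M), a2] at e1
    rw [← d2 M (Nat.lt_succ_self M), b2] at e2
    simp [hM] at e1 e2
    omega
  obtain ⟨z, z1, z2⟩ := exists_between_of_forall_le
    (s := {u : ℝ | ∃ j, ∀ p' ∈ PP, Agree j p p' → ∀ y ∈ seg (iv (R.Φ p')), u ≤ y})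
    (t := {v : ℝ | ∃ j, ∀ p' ∈ PP, Agree j p p' → ∀ y ∈ seg (iv (R.Φ p')), y ≤ v + 1 / 2 ^ l})
    ⟨0, 0, fun _ _ _ y hy => hy.1⟩
    ⟨1 - 1 / 2 ^ l, 0, fun _ _ _ y hy => by linarith [hy.2.1]⟩ (by
      rintro u ⟨j, hj⟩ v ⟨k, hk⟩
      obtain ⟨pa, hpa, pb, hpb, a1, b1, ya, hya, yb, hyb, hd⟩ := key (max j k)
      have := hj pa hpa (a1.mono (le_max_left _ _)) ya hya
      have := hj pb hpb (b1.mono (le_max_left _ _)) yb hyb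
      have := hk pa hpa (a1.mono (le_max_right _ _)) ya hya
      have := hk pb hpb (b1.mono (le_max_right _ _)) yb hyb
      rcases lt_abs.1 hd with h | h <;> linarith)
  refine ⟨z, fun y y1 y2 => ⟨le_trans (z1 ⟨0, fun _ _ _ y hy => hy.1⟩) y1, ?_, fun c =>
    ⟨fun h => ?_, fun h => ?_⟩⟩⟩
  · have : z ≤ 1 - 1 / 2 ^ l := z2 ⟨0, fun _ _ _ y hy => by linarith [hy.2.1]⟩
    linarith
  · obtain ⟨k, hk⟩ := keep_rel R hP hp (fun n => 2 * (2 * n) + 1) h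
    exact le_trans (z1 ⟨k, fun p' hp' a y hy => (hy.2.2 c).1 (hk p' hp' a)⟩) y1
  · obtain ⟨k, hk⟩ := keep_rel R hP hp (fun n => 2 * (2 * n) + 1) h
    have : z ≤ dy c - 1 / 2 ^ l :=
      z2 ⟨k, fun p' hp' a y hy => by linarith [(hy.2.2 c).2 (hk p' hp' a)]⟩
    linarith

theorem three : ∃ (β : ℕ → ℕ) (M x1 x2 x3 : ℕ) (p : ℕ → ℕ → ℕ), (∀ u, β u ≤ 1) ∧ β 0 = 0 ∧
    β 1 = 1 ∧ 2 ≤ M ∧ M < x1 ∧ x1 < x2 ∧ x2 < x3 ∧
    (∀ x, p x ∈ PP ∧ rel (p x) = fun u v => chi β M x u = chi β M x v) ∧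
    ∀ X : ℕ → Fin 4, ∃ g0 : ℕ → ℕ, ∀ x, x = x1 ∨ x = x2 ∨ x = x3 →
      (fun n => (X n : ℕ)) ∈ (DNC K).sol (dn (R.Φ (p x))) →
        ∃ g ∈ P.sol (p x), Agree (x3 + 1) g0 g := by
  classical
  obtain ⟨m, p0, hp0, k0, hm⟩ := baire (fun m => {p | ∀ i, R.Φ p (2 * i) ≠ m + 1})
    (fun p hp => (R.dom p (hP p hp)).1) (fun m p hp h => by
      simp only [Set.mem_ofPred_eq, not_forall, not_not] at h ⊢
      obtain ⟨i, hi⟩ := h
      obtain ⟨k, hk⟩ := R.cΦ p (hP p hp) (2 * i + 1)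
      exact ⟨k, fun p' hp' hA => ⟨i, by rw [← hk p' (hP p' hp') hA _ (Nat.lt_succ_self _), hi]⟩⟩)
  obtain ⟨M, hM2, hM⟩ : ∃ M, 2 ≤ M ∧
      ∀ i < k0, ∀ u v, p0 i = Nat.pair u v + 1 → u < M ∧ v < M := by
    refine ⟨(Finset.range k0).sup p0 + 2, by omega, fun i hi u v h => ?_⟩
    have h1 := Finset.le_sup (f := p0) (Finset.mem_range.2 hi)
    have h2 := Nat.left_le_pair u v
    have h3 := Nat.right_le_pair u v
    omega
  let β : ℕ → ℕ := fun u => if rel p0 u 1 then 1 else 0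
  have hβ0 : β 0 = 0 := if_neg hp0.2
  have hβ1 : β 1 = 1 := if_pos (hp0.1.refl 1)
  obtain ⟨p1, hA1, hp1⟩ := exists_name p0 k0
    (fun u v => (if u < M then β u else u) = if v < M then β v else v) (fun i hi u v h => by
      have h' : rel p0 u v := ⟨i, h⟩
      have : rel p0 u 1 ↔ rel p0 v 1 := ⟨hp0.1.trans (hp0.1.symm h'), hp0.1.trans h'⟩
      simp only [β, if_pos (hM i hi u v h).1, if_pos (hM i hi u v h).2, this])
  have hβ : ∀ u, β u ≤ 1 := fun u => by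
    simp only [β]
    split_ifs <;> omega
  have hP1 : p1 ∈ PP := by
    refine ⟨?_, ?_⟩ <;> rw [hp1]
    · exact ⟨fun _ => rfl, Eq.symm, Eq.trans⟩
    · dsimp only
      rw [if_pos (by omega), if_pos (by omega), hβ0, hβ1]
      omega
  obtain ⟨l, hl⟩ := commit R hP hm hP1 hA1 (M + 1)
  obtain ⟨l', hl'⟩ := commit R hP hm hP1 hA1 (M + (2 * (2 ^ l + 1) + 1) + 1)
  have c0 : ∀ x, chi β M x 0 = 0 := fun x => by rw [chi, if_pos (by omega), hβ0]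
  have c1 : ∀ x, chi β M x 1 = 1 := fun x => by rw [chi, if_pos (by omega), hβ1]
  have : ∀ x, ∃ p' ∈ PP, Agree (max l l') p1 p' ∧
      rel p' = fun u v => chi β M x u = chi β M x v := fun x =>
    fut _ (by rw [c0, c1]; omega) (fun u v h => by
      rw [hp1] at h
      have := hβ u
      have := hβ v
      unfold chi
      split_ifs at h ⊢ <;> omega) _
  choose p hp hA hr using this
  have hz := fun x => long R hP hK hsol hl (hp x) ((hA x).mono (le_max_left _ _)) (hr x) (c0 x)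
    (c1 x) (by simp [chi])
  choose z hz using hz
  have hpos : (0 : ℝ) < 2 ^ l := by positivity
  have hy : ∀ x, ((⌈z x * 2 ^ l⌉₊ : ℕ) : ℝ) / 2 ^ l ∈ seg (iv (R.Φ (p x))) := fun x => by
    have h0 : 0 ≤ z x := (hz x _ le_rfl (le_add_of_nonneg_right (by positivity))).1
    refine hz x _ ((le_div_iff₀ hpos).2 (Nat.le_ceil _)) ?_
    rw [div_le_iff₀ hpos, add_mul, one_div_mul_cancel hpos.ne']
    exact (Nat.ceil_lt_add_one (by positivity)).le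
  obtain ⟨j, -, hj⟩ := Finset.exists_lt_card_fiber_of_mul_lt_card_of_maps_to
    (s := Finset.Ioc M (M + (2 * (2 ^ l + 1) + 1))) (t := Finset.range (2 ^ l + 1))
    (f := fun x => ⌈z x * 2 ^ l⌉₊) (n := 2) (fun x _ => by
      have := (hy x).2.1
      rw [div_le_one hpos] at this
      exact Finset.mem_range.2 (Nat.lt_succ_of_le (by exact_mod_cast this))) (by
      simp only [Finset.card_range, Nat.card_Ioc]
      omega)
  obtain ⟨a, b, c, ha, hb, hc, hab, hac, hbc⟩ := Finset.two_lt_card_iff.1 hj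
  obtain ⟨x1, x2, x3, h1, h2, h3, h12, h23⟩ : ∃ x1 x2 x3, (x1 = a ∨ x1 = b ∨ x1 = c) ∧
      (x2 = a ∨ x2 = b ∨ x2 = c) ∧ (x3 = a ∨ x3 = b ∨ x3 = c) ∧ x1 < x2 ∧ x2 < x3 :=
    ⟨min a (min b c), max (min a b) (min (max a b) c), max a (max b c), by omega, by omega,
      by omega, by omega, by omega⟩
  have hmem : ∀ x, x = a ∨ x = b ∨ x = c →
      (M < x ∧ x ≤ M + (2 * (2 ^ l + 1) + 1)) ∧ ⌈z x * 2 ^ l⌉₊ = j := by
    rintro x (rfl | rfl | rfl)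
    · simpa using ha
    · simpa using hb
    · simpa using hc
  refine ⟨β, M, x1, x2, x3, p, hβ, hβ0, hβ1, hM2, (hmem x1 h1).1.1, h12, h23,
    fun x => ⟨hp x, hr x⟩, fun X => ?_⟩
  have hj1 := hy x1
  rw [(hmem x1 h1).2] at hj1
  obtain ⟨g0, hg⟩ := hl' _ ⟨hj1.1, hj1.2.1⟩ X
  refine ⟨g0, fun x hx hX => ?_⟩
  have hx' : ⌈z x * 2 ^ l⌉₊ = j := by
    rcases hx with rfl | rfl | rfl
    exacts [(hmem _ h1).2, (hmem _ h2).2, (hmem _ h3).2]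
  obtain ⟨g, g1, g2⟩ := hg (p x) (hp x) ((hA x).mono (le_max_right _ _)) _ (hx' ▸ hy x)
    (by simp) hX
  exact ⟨g, g1, g2.mono (by have := (hmem x3 h3).1.2; omega)⟩

end Pool.Agent.Lib.MP_5e3ef6_lc
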