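import Pool.Agent.Lib.MP_5e3ef6_lc.T3.Up
import Pool.Agent.Lib.MP_5e3ef6_lc.T3.Neg

namespace Pool.Agent.Lib.MP_5e3ef6_lc

theorem not_diag_cn_ivt_dnc {K : ℕ∞} (hK : 4 ≤ K) : ¬ WRed DIAG (prod CN (prod IVT (DNC K))) := by
  intro h
  obtain ⟨R⟩ := h.cred
  obtain ⟨β, M, x1, x2, x3, p, hβ, -, -, -, h1, h2, h3, hp, H⟩ := three R (fun _ => PP.dom)
    (le_trans (by norm_num) hK) fun _ _ _ hg => hg
  have hd := fun x => (R.dom (p x) (PP.dom (hp x).1)).2.2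
  obtain ⟨X, a1, a2, a3⟩ := avoid3 hK (hd x1) (hd x2) (hd x3)
  obtain ⟨g0, hg⟩ := H X
  have key : ∀ x, x = x1 ∨ x = x2 ∨ x = x3 →
      (fun n => (X n : ℕ)) ∈ (DNC K).sol (dn (R.Φ (p x))) →
      chi β M x (g0 x2) ≠ chi β M x x2 := by
    intro x hx hX
    obtain ⟨g, g1, g2⟩ := hg x hx hX
    have := g1 x2
    rwa [(hp x).2, ← g2 x2 (by omega)] at this
  have b1 := key x1 (by simp) a1
  have b2 := key x2 (by simp) a2
  have b3 := key x3 (by simp) a3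
  have := hβ (g0 x2)
  unfold chi at b1 b2 b3
  split_ifs at b1 b2 b3 <;> omega

/-- separation of the classes of `0` and `1` -/
def SEP : Problem where
  dom := PP
  sol p := {g | ∀ x, g x < 2 ∧ ¬ rel p (g x) x}

theorem sep_le : WRed SEP (DNC 2) := by
  have h : UCE (fun p : ℕ → ℕ => p) fun p (z : ℕ × ℕ) => rel p z.2 z.1 ∧ z.2 < 2 :=
    (UCE.rel.comp (f := fun z : ℕ × ℕ => (z.2, z.1)) (by fun_prop)).and (UCE.of_pr (by fun_prop))
  obtain ⟨F, h1, h2⟩ := UCE.enum' (S := fun p n a => rel p a n ∧ a < 2) h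
  refine WRed.intro F (fun _ q => q) (h1.pull fun x : SEP.dom => x.1) UC.right
    (fun p hp n a b ha hb => ?_) fun p _ q hq x => ?_
  · rw [h2] at ha hb
    by_contra hne
    have : (a = 0 ∧ b = 1) ∨ (a = 1 ∧ b = 0) := by
      have := ha.2
      have := hb.2
      omega
    rcases this with ⟨rfl, rfl⟩ | ⟨rfl, rfl⟩
    · exact hp.2 (hp.1.trans ha.1 (hp.1.symm hb.1))
    · exact hp.2 (hp.1.trans hb.1 (hp.1.symm ha.1))
  · have := hq x
    rw [h2] at this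
    have h3 : q x < 2 := by exact_mod_cast this.1
    exact ⟨h3, fun h => this.2 ⟨h, h3⟩⟩

theorem not_wkl_cn_ivt_dnc3 : ¬ WRed (DNC 2) (prod CN (prod IVT (DNC 3))) := by
  intro h
  obtain ⟨R⟩ := (sep_le.trans h).cred
  obtain ⟨β, M, x1, x2, x3, p, -, h0, h0', hM, h1, h2, h3, hp, H⟩ := three R (fun _ h => h)
    le_rfl fun _ _ _ hg x => (hg x).2
  have hd := fun x => (R.dom (p x) (hp x).1).2.2
  obtain ⟨X, a2, a3⟩ := avoid2 le_rfl (hd x2) (hd x3)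
  obtain ⟨g0, hg⟩ := H X
  have key : ∀ x, x = x1 ∨ x = x2 ∨ x = x3 →
      (fun n => (X n : ℕ)) ∈ (DNC 3).sol (dn (R.Φ (p x))) →
      g0 x2 < 2 ∧ chi β M x (g0 x2) ≠ chi β M x x2 := by
    intro x hx hX
    obtain ⟨g, g1, g2⟩ := hg x hx hX
    have := g1 x2
    rwa [(hp x).2, ← g2 x2 (by omega)] at this
  obtain ⟨b1, b2⟩ := key x2 (by simp) a2
  obtain ⟨-, b3⟩ := key x3 (by simp) a3
  have : g0 x2 = 0 ∨ g0 x2 = 1 := by omega
  rcases this with e | e <;> rw [e] at b2 b3 <;> unfold chi at b2 b3 <;>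
    split_ifs at b2 b3 <;> omega

theorem dnc_mono {j k : ℕ∞} (h : j ≤ k) : WRed (DNC k) (DNC j) :=
  WRed.intro (fun p => p) (fun _ q => q) UC.refl UC.right (fun _ h => h)
    fun _ _ _ hq n => ⟨(hq n).1.trans_le h, (hq n).2⟩

theorem dnc_le_ivt_prod (Q : Problem) : WRed Q (prod IVT Q) := by
  refine WRed.intro (fun p => join (fun _ => 0) p) (fun _ q n => q (2 * n + 1))
    (UC.join (UCE.of_pr (by fun_prop)) UC.refl) UC.right.od (fun p hp => ⟨?_, ?_⟩)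
    fun p _ q hq => ?_
  · rw [join_ev]
    exact ⟨0, le_rfl, zero_le_one, fun c => ⟨fun ⟨_, h⟩ => by simp at h, fun ⟨_, h⟩ => by simp at h⟩⟩
  · rwa [join_od]
  · have := hq.2
    rwa [join_od] at this

theorem UC.head {O : Type} {o F : O → ℕ → ℕ} (u : ℕ → ℕ) (hu : PR u) (h : UC o F) :
    UC o fun x _ => u (F x 0) := by
  have : UCE o fun x (z : ℕ × ℕ) => ∃ c, F x 0 = c ∧ u c = z.2 := by
    refine UCE.ex ?_
    exact (h.comp (f := fun v : (ℕ × ℕ) × ℕ => (0, v.2)) (by fun_prop)).and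
      (UCE.of_pr (PR.dec_eq (by fun_prop) (by fun_prop)))
  exact this.of_iff fun x z => by simp

theorem collapse : WRed (prod CN (prod (prod CN (DNC 2)) (DNC 2))) (prod CN (DNC 2)) := by
  have ho : UC (fun p : ℕ → ℕ => p) fun p => p := UC.refl
  have h1 : UCE (fun p : ℕ → ℕ => p) fun p (n : ℕ) => ∃ i, p (2 * i) = n.unpair.1 + 1 ∨
      p (2 * (2 * (2 * i)) + 1) = n.unpair.2 + 1 := by
    refine UCE.ex (UCE.or ?_ ?_)
    · exact ho.comp (f := fun v : ℕ × ℕ => (2 * v.2, v.1.unpair.1 + 1)) (by fun_prop)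
    · exact ho.comp (f := fun v : ℕ × ℕ => (2 * (2 * (2 * v.2)) + 1, v.1.unpair.2 + 1))
        (by fun_prop)
  obtain ⟨c1, hc1, h1⟩ := h1.enum
  choose F1 h1 h1' using h1
  have h2 : UCE (fun p : ℕ → ℕ => p) fun p (z : ℕ × ℕ) =>
      (z.1 % 2 = 0 ∧ rel (fun n => p (2 * (2 * (2 * n + 1)) + 1)) (z.1 / 2) z.2) ∨
      (z.1 % 2 = 1 ∧ rel (fun n => p (2 * (2 * n + 1) + 1)) (z.1 / 2) z.2) :=
    ((UCE.of_pr (by fun_prop)).and ((UCE.trans ho.od.ev.od UCE.rel).comp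
      (f := fun z : ℕ × ℕ => (z.1 / 2, z.2)) (by fun_prop))).or
    ((UCE.of_pr (by fun_prop)).and ((UCE.trans ho.od.od UCE.rel).comp
      (f := fun z : ℕ × ℕ => (z.1 / 2, z.2)) (by fun_prop)))
  obtain ⟨F2, h2, h2'⟩ := UCE.enum' (S := fun (p : ℕ → ℕ) n a =>
    (n % 2 = 0 ∧ rel (fun n => p (2 * (2 * (2 * n + 1)) + 1)) (n / 2) a) ∨
    (n % 2 = 1 ∧ rel (fun n => p (2 * (2 * n + 1) + 1)) (n / 2) a)) h2
  refine WRed.intro (fun p => join (F1 p) (F2 p))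
    (fun _ q => join (fun _ => (q 0).unpair.1) (join (join (fun _ => (q 0).unpair.2)
      fun n => q (2 * (2 * n) + 1)) fun n => q (2 * (2 * n + 1) + 1)))
    ((UC.join (UCE.of_computes hc1 h1) h2).pull fun x : Problem.dom _ => x.1)
    ((UC.head (fun c => c.unpair.1) (by fun_prop) UC.right).join
      (((UC.head (fun c => c.unpair.2) (by fun_prop) UC.right).join UC.right.od.ev).join
        UC.right.od.od)) ?_ ?_
  · rintro p ⟨⟨a, ha⟩, ⟨⟨b, hb⟩, d1⟩, d2⟩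
    refine ⟨?_, ?_⟩
    · rw [join_ev]
      refine ⟨Nat.pair a b, fun i hi => ?_⟩
      obtain ⟨j, hj⟩ := (h1' p _).1 ⟨i, hi⟩
      simp only [Nat.unpair_pair] at hj
      exact hj.elim (ha j) (hb j)
    · rw [join_od]
      intro n a b
      rw [h2']
      rintro (⟨e, h⟩ | ⟨e, h⟩) (⟨e', h'⟩ | ⟨e', h'⟩)
      · exact d1 _ _ _ h h'
      · omega
      · omega
      · exact d2 _ _ _ h h'
  · rintro p - q ⟨q1, q2⟩
    simp only [join_two_mul, join_two_mul_add] at q1 q2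
    have q3 : ¬ ∃ i, F1 p i = q 0 + 1 := not_exists.2 q1
    rw [h1'] at q3
    refine ⟨?_, ⟨?_, ?_⟩, ?_⟩ <;> simp only [join_two_mul, join_two_mul_add]
    · exact fun i h => q3 ⟨i, Or.inl h⟩
    · exact fun i h => q3 ⟨i, Or.inr h⟩
    · intro n
      have := q2 (2 * n)
      rw [h2'] at this
      exact ⟨this.1, fun h => this.2 (Or.inl ⟨by omega, by
        rwa [show 2 * n / 2 = n by omega]⟩)⟩
    · intro n
      have := q2 (2 * n + 1)
      rw [h2'] at this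
      exact ⟨this.1, fun h => this.2 (Or.inr ⟨by omega, by
        rwa [show (2 * n + 1) / 2 = n by omega]⟩)⟩

theorem triple_le_cr : WRed (prod CN (prod IVT (DNC 3))) (prod CN (DNC 2)) :=
  ((WRed.refl CN).prod ((ivt_le_diag.trans diag_le_cn_dnc2).prod
    (dnc_mono (by norm_num)))).trans collapse

theorem sandwich :
    (∀ k : ℕ∞, 2 ≤ k → (WRed DIAG (prod CN (prod IVT (DNC k))) ↔ k ≤ 3)) ∧
    ¬ WRed (prod CN (prod IVT (DNC 3))) DIAG ∧
    WRed (prod CN (prod IVT (DNC 3))) (prod CN (DNC 2)) ∧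
    ¬ WRed (DNC 2) (prod CN (prod IVT (DNC 3))) := by
  refine ⟨fun k _ => ⟨fun h => ?_, fun h => diag_le_cn_ivt_dnc3.trans ((WRed.refl CN).prod
    ((WRed.refl IVT).prod (dnc_mono h)))⟩, fun h => ?_, triple_le_cr, not_wkl_cn_ivt_dnc3⟩
  · by_contra hk
    exact not_diag_cn_ivt_dnc (Order.add_one_le_of_lt (not_le.1 hk)) h
  · have := ((position 3 (by norm_num)).2.1).1 ((dnc_le_ivt_prod _).trans h.of_cn_prod)
    cases this

end Pool.Agent.Lib.MP_5e3ef6_lc
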