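import Pool.Agent.Lib.MP_5e3ef6_lc.T3.B

namespace Pool.Agent.Lib.MP_5e3ef6_lc

theorem WRed.intro_sel {P Q : Problem} (Φ : (ℕ → ℕ) → ℕ → ℕ)
    (R : (ℕ → ℕ) → (ℕ → ℕ) → ℕ → ℕ → Prop)
    (hΦ : UC (fun x : P.dom => x.1) fun x => Φ x.1)
    (hR : UCE (fun x : (ℕ → ℕ) × (ℕ → ℕ) => join x.1 x.2)
      fun x (z : ℕ × ℕ) => R x.1 x.2 z.1 z.2)
    (hd : ∀ p ∈ P.dom, Φ p ∈ Q.dom)
    (ht : ∀ p ∈ P.dom, ∀ q ∈ Q.sol (Φ p), ∀ n, ∃ v, R p q n v)
    (hs : ∀ p ∈ P.dom, ∀ q ∈ Q.sol (Φ p), ∀ g : ℕ → ℕ, (∀ n, R p q n (g n)) → g ∈ P.sol p) :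
    WRed P Q := by
  obtain ⟨c, hc, h1⟩ := hΦ.computes
  obtain ⟨d, hd', h2⟩ := (hR.pull fun x : Back P Q Φ => x.1).select
    (R := fun (x : Back P Q Φ) n v => R x.1.1 x.1.2 n v) fun x n => ht _ x.2.1 _ x.2.2 n
  refine ⟨c, d, hc, hd', fun p hp => ⟨Φ p, hd p hp, h1 ⟨p, hp⟩, fun q hq => ?_⟩⟩
  obtain ⟨f, hf, hf'⟩ := h2 ⟨(p, q), hp, hq⟩
  exact ⟨f, hs p hp q hq f hf', hf⟩

abbrev L3 := List ℕ × List ℕ × List ℕ

def pick (i : ℕ) (z : L3) : List ℕ := if i = 0 then z.1 else if i = 1 then z.2.1 else z.2.2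

def inc3 (z : L3) : Prop := inc z.1 z.2.1 ∧ inc z.1 z.2.2 ∧ inc z.2.1 z.2.2

instance (z : L3) : Decidable (inc3 z) := inferInstanceAs (Decidable (_ ∧ _))

@[fun_prop] theorem pr_pick {α : Type} [Primcodable α] {i : α → ℕ} {z : α → L3} (hi : PR i)
    (hz : PR z) : PR fun a => pick (i a) (z a) := by
  unfold pick
  fun_prop

@[fun_prop] theorem pr_inc3 {α : Type} [Primcodable α] {z : α → L3} (hz : PR z) :
    PR fun a => decide (inc3 (z a)) := by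
  unfold inc3
  fun_prop

/-- the index of a query -/
def qix (x m : ℕ) (z : L3) : ℕ := Encodable.encode ((x, m), z)

@[fun_prop] theorem pr_qix {α : Type} [Primcodable α] {x m : α → ℕ} {z : α → L3} (hx : PR x)
    (hm : PR m) (hz : PR z) : PR fun a => qix (x a) (m a) (z a) :=
  PR.encode ((hx.prodMk hm).prodMk hz)

theorem qix_inj {w w' : (ℕ × ℕ) × L3} (h : qix w.1.1 w.1.2 w.2 = qix w'.1.1 w'.1.2 w'.2) :
    w = w' := Encodable.encode_injective h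

attribute [irreducible] qix

/-- the value `i` is forbidden at the query `n` -/
def DnB (p : ℕ → ℕ) (n i : ℕ) : Prop := ∃ w : (ℕ × ℕ) × L3,
  (n = qix w.1.1 w.1.2 w.2 ∧ inc3 w.2 ∧ i < 3) ∧
    ∃ s, decide (hist (pre p s) w.1.1 w.1.2 = pick i w.2) = true

theorem uce_DnB : UCE (fun p : ℕ → ℕ => p) fun p (z : ℕ × ℕ) => DnB p z.1 z.2 := by
  refine UCE.ex (UCE.and (UCE.of_pr (by fun_prop)) ?_)
  exact UCE.mk' (fun l (u : (ℕ × ℕ) × (ℕ × ℕ) × L3) =>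
    decide (hist l u.2.1.1 u.2.1.2 = pick u.1.2 u.2.2)) (by fun_prop) fun _ _ => Iff.rfl

theorem DnB_unique {p : ℕ → ℕ} {n i j : ℕ} (h : DnB p n i) (h' : DnB p n j) : i = j := by
  obtain ⟨w, ⟨rfl, h1, hi⟩, s, hs⟩ := h
  obtain ⟨w', ⟨e, -, hj⟩, t, ht⟩ := h'
  obtain rfl := qix_inj e
  simp only [decide_eq_true_eq] at hs ht
  have hc : pick i w.2 <+: pick j w.2 ∨ pick j w.2 <+: pick i w.2 := by
    rw [← hs, ← ht]
    exact (le_total s t).imp (hist_mono p _ _) (hist_mono p _ _)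
  simp only [inc3, inc_iff] at h1
  obtain ⟨⟨a1, a2⟩, ⟨a3, a4⟩, a5, a6⟩ := h1
  interval_cases i <;> interval_cases j <;> simp_all [pick]

/-- the list `h` is denied by the answers `D` -/
def den (D : ℕ → ℕ) (x m : ℕ) (h : List ℕ) : Prop :=
  ∃ w : L3 × ℕ, D (qix x m w.1) = w.2 ∧ inc3 w.1 ∧ pick w.2 w.1 = h

/-- the list `h` respects the weight bounds -/
def okL (l : List ℕ) (b r x m : ℕ) (h : List ℕ) : Prop :=
  x ∈ h ∧ ¬ (0 ∈ h ∧ b ∈ h) ∧
    (¬ 0 ∈ h ∨ tV (fun y => decide (y ∈ h) && !zz l y) m ≤ r + 1) ∧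
    (¬ b ∈ h ∨ tV (fun y => decide (y ∈ h) || zz l y) m + r ≤ 2 ^ m + 1)

instance (l : List ℕ) (b r x m : ℕ) (h : List ℕ) : Decidable (okL l b r x m h) :=
  inferInstanceAs (Decidable (_ ∧ _))

@[fun_prop] theorem pr_okL {α : Type} [Primcodable α] {l h : α → List ℕ} {b r x m : α → ℕ}
    (hl : PR l) (hb : PR b) (hr : PR r) (hx : PR x) (hm : PR m) (hh : PR h) :
    PR fun a => decide (okL (l a) (b a) (r a) (x a) (m a) (h a)) := by
  unfold okL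
  fun_prop

theorem exists_free {l : List ℕ} {b r x : ℕ} {D : ℕ → ℕ} (hz : zz l x = false)
    (h0 : ∃ h ∈ tT (x + b + 3), okL l b r x (x + b + 3) h ∧ ¬ den D x (x + b + 3) h) :
    ∃ y < x + b + 3, ∀ h ∈ tT (x + b + 3), okL l b r x (x + b + 3) h ∧ y ∈ h →
      den D x (x + b + 3) h := by
  obtain ⟨a, c, ha, hc, hac⟩ := two_leaves (tT (x + b + 3))
    (fun h => h ∈ tT (x + b + 3) ∧ okL l b r x (x + b + 3) h ∧ ¬ den D x (x + b + 3) h)
    (fun _ h => h.1) (fun u v w ha hb hc h => by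
      have : ∀ i, pick i (u, v, w) = u ∨ pick i (u, v, w) = v ∨ pick i (u, v, w) = w := by
        intro i
        unfold pick
        split_ifs <;> simp
      rcases this (D (qix x (x + b + 3) (u, v, w))) with e | e | e
      · exact ha.2.2 ⟨((u, v, w), _), rfl, h, e⟩
      · exact hb.2.2 ⟨((u, v, w), _), rfl, h, e⟩
      · exact hc.2.2 ⟨((u, v, w), _), rfl, h, e⟩) h0
  have key : ∀ a c : List ℕ, okL l b r x (x + b + 3) a → okL l b r x (x + b + 3) c → 0 ∈ a →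
      b ∈ c → ¬ ∀ y < x + b + 3, y ∈ a ∨ y ∈ c := by
    intro a c ha hc h1 h2 hcov
    have h3 := ha.2.2.1.resolve_left (not_not.2 h1)
    have h4 := hc.2.2.2.resolve_left (not_not.2 h2)
    have e : x + b + 3 = x + 1 + (b + 2) := by omega
    rw [e] at h3 h4 hcov
    have := tV_cover2 (P := fun y => decide (y ∈ a) && !zz l y)
      (Q := fun y => decide (y ∈ c) || zz l y) (x := x) (by simp [ha.1, hz]) (by simp [hc.1])
      (b + 2) fun y hy => by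
        rcases hcov y hy with h | h <;> cases hy : zz l y <;> simp [h]
    have h5 : 2 ^ (b + 2) = 4 * 2 ^ b := by ring
    have h6 : 0 < 2 ^ b := by positivity
    omega
  have : ¬ ∀ y < x + b + 3, y ∈ a ∨ y ∈ c := by
    intro hcov
    rcases hcov 0 (by omega) with h1 | h1 <;> rcases hcov b (by omega) with h2 | h2
    · exact ha.2.1.2.1 ⟨h1, h2⟩
    · exact key a c ha.2.1 hc.2.1 h1 h2 hcov
    · exact key c a hc.2.1 ha.2.1 h1 h2 fun y hy => (hcov y hy).symm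
    · exact hc.2.1.2.1 ⟨h1, h2⟩
  push Not at this
  obtain ⟨y, hy, h1, h2⟩ := this
  refine ⟨y, hy, fun h hh ⟨h3, h4⟩ => ?_⟩
  by_contra h5
  rcases hac h ⟨hh, h3, h5⟩ with h6 | h6
  · exact h1 (h6.subset h4)
  · exact h2 (h6.subset h4)

/-- the answer relation of the reduction -/
def AnsR (p q : ℕ → ℕ) (x y : ℕ) : Prop := ∃ c, q 0 = c ∧
  ((rel p 0 x ∧ y = c.unpair.2) ∨ (rel p c.unpair.2 x ∧ y = 0) ∨
    ∃ w : List ℕ × ℕ, w.1 = pre p w.1.length ∧ q (2 * (2 * (x + c.unpair.2 + 3)) + 1) = w.2 ∧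
      (w.1.length = c.unpair.1 ∧ y < x + c.unpair.2 + 3) ∧
      ∀ h ∈ tT (x + c.unpair.2 + 3),
        okL w.1 c.unpair.2 w.2 x (x + c.unpair.2 + 3) h ∧ y ∈ h →
          den (fun n => q (2 * (2 * n + 1) + 1)) x (x + c.unpair.2 + 3) h)

theorem uce_AnsR : UCE (fun x : (ℕ → ℕ) × (ℕ → ℕ) => join x.1 x.2)
    fun x (z : ℕ × ℕ) => AnsR x.1 x.2 z.1 z.2 := by
  have hp : UC (fun x : (ℕ → ℕ) × (ℕ → ℕ) => join x.1 x.2) fun x => x.1 := UC.left
  have hq : UC (fun x : (ℕ → ℕ) × (ℕ → ℕ) => join x.1 x.2) fun x => x.2 := UC.right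
  have hr := UCE.trans hp UCE.rel
  have hT := pr_tT
  have hden : UCE (fun x : (ℕ → ℕ) × (ℕ → ℕ) => join x.1 x.2)
      fun x (u : (ℕ × ℕ) × List ℕ) =>
        den (fun n => x.2 (2 * (2 * n + 1) + 1)) u.1.1 u.1.2 u.2 := by
    have a1 : PR fun v : ((ℕ × ℕ) × List ℕ) × L3 × ℕ => decide (inc3 v.2.1) :=
      pr_inc3 (by fun_prop)
    have a2 : PR fun v : ((ℕ × ℕ) × List ℕ) × L3 × ℕ => decide (pick v.2.2 v.2.1 = v.1.2) :=
      PR.dec_eq (pr_pick (by fun_prop) (by fun_prop)) (by fun_prop)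
    refine UCE.ex ?_
    refine UCE.and ?_ (UCE.and (UCE.of_pr a1) (UCE.of_pr a2))
    exact hq.comp (f := fun v : ((ℕ × ℕ) × List ℕ) × L3 × ℕ =>
      (2 * (2 * qix v.1.1.1 v.1.1.2 v.2.1 + 1) + 1, v.2.2)) (by fun_prop)
  refine UCE.ex (UCE.and (hq.comp (f := fun v : (ℕ × ℕ) × ℕ => (0, v.2)) (by fun_prop))
    (UCE.or ?_ (UCE.or ?_ (UCE.ex ?_))))
  · exact (hr.comp (f := fun v : (ℕ × ℕ) × ℕ => (0, v.1.1)) (by fun_prop)).and
      (UCE.of_pr (by fun_prop))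
  · exact (hr.comp (f := fun v : (ℕ × ℕ) × ℕ => (v.2.unpair.2, v.1.1)) (by fun_prop)).and
      (UCE.of_pr (by fun_prop))
  · refine UCE.and ((UCE.isPre' hp).comp
      (f := fun v : ((ℕ × ℕ) × ℕ) × List ℕ × ℕ => v.2.1) (by fun_prop)) (UCE.and ?_
        (UCE.and (UCE.of_pr (by fun_prop)) (UCE.ball (UCE.imp ?_ ?_) ?_)))
    · exact hq.comp (f := fun v : ((ℕ × ℕ) × ℕ) × List ℕ × ℕ =>
        (2 * (2 * (v.1.1.1 + v.1.2.unpair.2 + 3)) + 1, v.2.2)) (by fun_prop)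
    · exact hden.comp (f := fun v : (((ℕ × ℕ) × ℕ) × List ℕ × ℕ) × List ℕ =>
        ((v.1.1.1.1, v.1.1.1.1 + v.1.1.2.unpair.2 + 3), v.2)) (by fun_prop)
    · exact PR.dec_and (pr_okL (by fun_prop) (by fun_prop) (by fun_prop) (by fun_prop)
        (by fun_prop) (by fun_prop)) (PR.dec_mem (by fun_prop) (by fun_prop))
    · exact hT.comp (by fun_prop)

theorem diag_le_cn_ivt_dnc3 : WRed DIAG (prod CN (prod IVT (DNC 3))) := by
  have h1 : UCE (fun p : ℕ → ℕ => p) fun p (n : ℕ) =>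
      (∃ l : List ℕ, l = pre p l.length ∧ l.length = n.unpair.1 ∧ ¬ isB l n.unpair.2 = true) ∨
        rel p 0 n.unpair.2 := by
    refine UCE.or (UCE.ex (UCE.and ?_ (UCE.of_pr (by fun_prop)))) ?_
    · exact UCE.isPre.comp (f := fun v : ℕ × List ℕ => v.2) (by fun_prop)
    · exact UCE.rel.comp (f := fun n : ℕ => (0, n.unpair.2)) (by fun_prop)
  obtain ⟨c1, hc1, h1⟩ := h1.enum
  choose F1 h1 h1' using h1
  obtain ⟨F2, h2, h2'⟩ := uce_IvB.enum'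
  obtain ⟨F3, h3, h3'⟩ := uce_DnB.enum'
  have hcn : ∀ p n, (∀ i, F1 p i ≠ n + 1) ↔
      isB (pre p n.unpair.1) n.unpair.2 = true ∧ ¬ rel p 0 n.unpair.2 := by
    intro p n
    rw [← not_exists, h1', not_or]
    refine and_congr_left fun _ => ⟨fun h => ?_, ?_⟩
    · by_contra h'
      exact h ⟨pre p n.unpair.1, by simp, by simp, h'⟩
    · rintro h ⟨l, e1, e2, e3⟩
      rw [e2] at e1
      exact e3 (e1 ▸ h)
  have main : ∀ p ∈ DIAG.dom, ∀ q ∈ (prod CN (prod IVT (DNC 3))).sol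
      (join (F1 p) (join (F2 p) (F3 p))),
      (isB (pre p (q 0).unpair.1) (q 0).unpair.2 = true ∧ ¬ rel p 0 (q 0).unpair.2) ∧
      ∀ x m, x < m → ∀ s, hist (pre p s) x m ∈ tT m ∧
        okL (pre p (q 0).unpair.1) (q 0).unpair.2 (q (2 * (2 * m) + 1)) x m (hist (pre p s) x m) ∧
        ¬ den (fun n => q (2 * (2 * n + 1) + 1)) x m (hist (pre p s) x m) := by
    rintro p hp q ⟨q1, q2, q3⟩
    simp only [join_two_mul, join_two_mul_add] at q1 q2 q3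
    obtain ⟨hs, hb⟩ := (hcn p (q 0)).1 q1
    refine ⟨⟨hs, hb⟩, fun x m hx s => ?_⟩
    have hE := hp.1
    obtain ⟨s1, s2⟩ := hist_spec p hx s
    have hrel : ∀ y ∈ hist (pre p s) x m, rel p x y := fun y hy =>
      (s2 y hy).2.elim (fun e => e ▸ hE.refl _) id
    refine ⟨mem_tT s1 fun y hy => (s2 y hy).1, ⟨hist_self _ _ _ _, fun h =>
      hb (hE.trans (hE.symm (hrel _ h.1)) (hrel _ h.2)), ?_, ?_⟩, ?_⟩
    · refine or_iff_not_imp_left.2 fun h => ?_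
      have := (sol_IvB (h2' p) q2 m ((hist (pre p s) x m).filter
        fun y => !zz (pre p (q 0).unpair.1) y)).1 fun y hy => by
          rw [List.mem_filter] at hy
          exact lo_of_a hE hs hb (hE.trans (hE.symm (hrel _ (not_not.1 h))) (hrel _ hy.1))
            (by simpa using hy.2)
      refine le_of_eq_of_le (tV_congr m fun y _ => ?_) this
      simp [List.mem_filter]
    · refine or_iff_not_imp_left.2 fun h => ?_
      have := (sol_IvB (h2' p) q2 m (hist (pre p s) x m ++ (List.range m).filter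
        fun y => zz (pre p (q 0).unpair.1) y)).2 fun y hy => by
          rcases List.mem_append.1 hy with hy | hy
          · exact up_of_b hE hs hb (hE.trans (hE.symm (hrel _ (not_not.1 h))) (hrel _ hy))
          · obtain ⟨t, -, ht⟩ := zz_iff.1 (List.mem_filter.1 hy).2
            exact ⟨t, ht⟩
      refine le_of_eq_of_le (congrArg (· + _) (tV_congr m fun y hy => ?_)) this
      simp [List.mem_filter, hy]
    · rintro ⟨⟨z, i⟩, e1, e2, e3⟩
      have := q3 (qix x m z)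
      dsimp only at this e1 e2 e3
      rw [e1, h3'] at this
      exact this.2 ⟨((x, m), z), ⟨rfl, e2, by exact_mod_cast this.1⟩, s, by simpa using e3.symm⟩
  refine WRed.intro_sel (fun p => join (F1 p) (join (F2 p) (F3 p)))
    (fun p q x y => AnsR p q x y) ?_ uce_AnsR (fun p hp => ⟨?_, ?_, ?_⟩) ?_ ?_
  · exact ((UC.join (UCE.of_computes hc1 h1) (h2.join h3)).pull fun x : DIAG.dom => x.1)
  · rw [join_ev]
    obtain ⟨s, b, h⟩ := exists_isB hp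
    exact ⟨Nat.pair s b, (hcn p _).2 (by simpa using h)⟩
  · simp only [join_two_mul, join_two_mul_add]
    exact seg_IvB (h2' p)
  · simp only [join_two_mul_add]
    intro n a b ha hb
    rw [h3'] at ha hb
    exact DnB_unique ha hb
  · intro p hp q hq x
    obtain ⟨⟨hs, hb⟩, h⟩ := main p hp q hq
    cases hz : zz (pre p (q 0).unpair.1) x
    · obtain ⟨y, hy, h⟩ := exists_free hz ⟨_, h x _ (by omega) 0⟩
      exact ⟨y, _, rfl, Or.inr (Or.inr ⟨(pre p (q 0).unpair.1, _), by simp, rfl,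
        ⟨by simp, hy⟩, h⟩)⟩
    · rcases zz_ab hp.1 hs hb hz with h | h
      · exact ⟨_, _, rfl, Or.inl ⟨h, rfl⟩⟩
      · exact ⟨_, _, rfl, Or.inr (Or.inl ⟨h, rfl⟩)⟩
  · intro p hp q hq g hg x hx
    obtain ⟨⟨hs, hb⟩, h⟩ := main p hp q hq
    have hE := hp.1
    obtain ⟨_, rfl, ⟨h4, h5⟩ | ⟨h4, h5⟩ | ⟨⟨l, r⟩, e1, e2, ⟨e3, e4⟩, e5⟩⟩ := hg x
    · exact hb (hE.trans h4 (hE.symm (h5 ▸ hx)))
    · exact hb (hE.trans (h5 ▸ hx) (hE.symm h4))
    · dsimp only at e1 e2 e3 e5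
      rw [e3] at e1
      subst e1 e2
      obtain ⟨s, hs⟩ := hist_mem (hE.symm hx) e4
      obtain ⟨k1, k2, k3⟩ := h x (x + (q 0).unpair.2 + 3) (by omega) s
      exact k3 (e5 _ k1 ⟨k2, hs⟩)

end Pool.Agent.Lib.MP_5e3ef6_lc
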